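import Pool.Agent.Lib.MP_ce2dd3_lc.Opt

namespace Pool.Agent.Lib.MP_ce2dd3_lc

open BT

theorem keys_frontier (P : List ℕ) (t : BT) :
    (frontier P t).flatMap (Sum.elim (fun k => [k]) keys) = keys t := by
  induction t with
  | nil => simp [frontier, keys]
  | node l k r ih1 ih2 =>
    by_cases h : k ∈ P
    · simp [frontier, h, keys, ih1, ih2]
    · simp [frontier, h]

theorem keys_eq_of_frontier {P : List ℕ} {t t' : BT} (h : frontier P t = frontier P t') :
    keys t = keys t' := by
  rw [← keys_frontier P t, h, keys_frontier]

theorem mem_top {P : List ℕ} {t : BT} {k : ℕ} : k ∈ top P t ↔ Sum.inl k ∈ frontier P t := by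
  simp only [top, List.mem_filterMap]
  constructor
  · rintro ⟨a, ha, h⟩
    cases a with
    | inl a => simp at h; exact h ▸ ha
    | inr a => simp at h
  · intro h; exact ⟨_, h, rfl⟩

theorem top_node {P : List ℕ} {k : ℕ} (h : k ∈ P) (l r : BT) :
    top P (node l k r) = top P l ++ k :: top P r := by
  simp [top, frontier, h]

theorem top_node' {P : List ℕ} {k : ℕ} (h : k ∉ P) (l r : BT) : top P (node l k r) = [] := by
  simp [top, frontier, h]

theorem top_nil (P : List ℕ) : top P nil = [] := by simp [top, frontier]

theorem mem_of_top {P : List ℕ} {k : ℕ} : ∀ {t : BT}, k ∈ top P t → k ∈ P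
  | nil, h => by simp [top_nil] at h
  | node l j r, h => by
    by_cases hj : j ∈ P
    · rw [top_node hj] at h
      simp only [List.mem_append, List.mem_cons] at h
      rcases h with h | rfl | h
      · exact mem_of_top h
      · exact hj
      · exact mem_of_top h
    · simp [top_node' hj] at h

theorem split_frontier (P : List ℕ) (k : ℕ) : ∀ (t : BT) (F1 F2 : List (ℕ ⊕ BT)),
    frontier P t = F1 ++ Sum.inl k :: F2 →
      (∃ a, frontier P a = F1) ∧ ∃ b, frontier P b = F2 := by
  intro t
  induction t with
  | nil => intro F1 F2 h; cases F1 <;> simp [frontier] at h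
  | node l j r ih1 ih2 =>
    intro F1 F2 h
    by_cases hj : j ∈ P
    · simp only [frontier, hj, if_true] at h
      rcases List.append_eq_append_iff.1 h with ⟨a, h1, h2⟩ | ⟨a, h1, h2⟩
      · cases a with
        | nil =>
          simp only [List.nil_append, List.cons.injEq] at h2
          exact ⟨⟨l, by simp [h1]⟩, r, h2.2⟩
        | cons b a =>
          simp only [List.cons_append, List.cons.injEq] at h2
          obtain ⟨⟨u, hu⟩, hv⟩ := ih2 _ _ h2.2
          exact ⟨⟨node l j u, by simp [frontier, hj, h1, hu, h2.1]⟩, hv⟩
      · cases a with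
        | nil =>
          simp only [List.nil_append, List.cons.injEq] at h2
          exact ⟨⟨l, by simp [h1]⟩, r, h2.2.symm⟩
        | cons b a =>
          simp only [List.cons_append, List.cons.injEq] at h2
          rw [← h2.1] at h1
          obtain ⟨hu, v, hv⟩ := ih1 _ _ h1
          exact ⟨hu, node v j r, by simp [frontier, hj, hv, h2.2]⟩
    · cases F1 <;> simp [frontier, hj] at h

theorem exists_heap (P : List ℕ) (κ : ℕ → ℕ) : ∀ (n : ℕ) (t : BT), (frontier P t).length ≤ n →
    ∃ t', frontier P t' = frontier P t ∧ Heap P κ t' := by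
  intro n
  induction n with
  | zero =>
    intro t h
    cases t with
    | nil => simp [frontier] at h
    | node l k r => by_cases hk : k ∈ P <;> simp [frontier, hk] at h
  | succ n ih =>
    intro t h
    by_cases he : top P t = []
    · refine ⟨t, rfl, ?_⟩
      cases t with
      | nil => trivial
      | node l k r =>
        intro hk
        simp [top_node hk] at he
    · obtain ⟨k, hk, hmin⟩ := (top P t).toFinset.exists_min_image κ
        (by simpa [List.toFinset_nonempty_iff] using he)
      rw [List.mem_toFinset] at hk
      obtain ⟨F1, F2, e⟩ := List.append_of_mem (mem_top.1 hk)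
      obtain ⟨⟨a, ha⟩, b, hb⟩ := split_frontier P k t F1 F2 e
      rw [e] at h
      simp only [List.length_append, List.length_cons] at h
      obtain ⟨a', ha1, ha2⟩ := ih a (by rw [ha]; omega)
      obtain ⟨b', hb1, hb2⟩ := ih b (by rw [hb]; omega)
      have hP := mem_of_top hk
      have ef : frontier P (node a' k b') = frontier P t := by
        simp [frontier, hP, ha1, hb1, ha, hb, e]
      refine ⟨node a' k b', ef, fun _ => ⟨fun v hv => hmin v ?_, ha2, hb2⟩⟩
      rw [List.mem_toFinset, mem_top, ← ef, ← mem_top, top_node hP]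
      simp only [List.mem_append, List.mem_cons] at hv ⊢
      tauto

theorem toRoot_spec (x : ℕ) : ∀ T : BT, (keys T).Pairwise (· < ·) → x ∈ keys T →
    ∃ l r, toRoot x T = node l x r ∧ keys (node l x r) = keys T := by
  intro T
  induction T with
  | nil => intro _ h; simp [keys] at h
  | node l k r ih1 ih2 =>
    intro hs hx
    simp only [keys, List.pairwise_append, List.pairwise_cons, List.mem_cons,
      List.mem_append] at hs hx
    obtain ⟨h1, ⟨h2, h3⟩, h4⟩ := hs
    rcases hx with hx | rfl | hx
    · have hlt : x < k := h4 x hx k (Or.inl rfl)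
      obtain ⟨a, b, e1, e2⟩ := ih1 h1 hx
      refine ⟨a, node b k r, by simp [toRoot, hlt, e1, rotR], ?_⟩
      simp [keys, ← e2]
    · exact ⟨l, r, by simp [toRoot], rfl⟩
    · have hlt : k < x := h2 x hx
      obtain ⟨a, b, e1, e2⟩ := ih2 h3 hx
      refine ⟨node l k a, b, by simp [toRoot, hlt, hlt.le.not_gt, e1, rotL], ?_⟩
      simp [keys, ← e2]

theorem exists_greedy : ∀ (σ : List ℕ) (T : BT), (keys T).Pairwise (· < ·) →
    (∀ x ∈ σ, x ∈ keys T) → ∃ g, Greedy T σ g := by
  intro σ
  induction σ with
  | nil => intro T _ _; exact ⟨0, .done T⟩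
  | cons x σ ih =>
    intro T hs hx
    obtain ⟨l, r, e1, e2⟩ := toRoot_spec x T hs (hx x (by simp))
    obtain ⟨l', a1, a2⟩ := exists_heap (path x T) (key σ (path x T) (toRoot x T)) _ l le_rfl
    obtain ⟨r', b1, b2⟩ := exists_heap (path x T) (key σ (path x T) (toRoot x T)) _ r le_rfl
    have ek : keys (node l' x r') = keys T := by
      rw [← e2]; simp [keys, keys_eq_of_frontier a1, keys_eq_of_frontier b1]
    obtain ⟨g, hg⟩ := ih (node l' x r') (ek ▸ hs) fun y hy => ek ▸ hx y (by simp [hy])
    exact ⟨_, .step ⟨l, r, l', r', e1, rfl, a1, b1, a2, b2⟩ hg⟩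

theorem heap_unique (P : List ℕ) (κ : ℕ → ℕ) : ∀ t t' : BT, frontier P t = frontier P t' →
    Heap P κ t → Heap P κ t' → (top P t).Nodup →
    (∀ a ∈ top P t, ∀ b ∈ top P t, κ a = κ b → a = b) → t = t' := by
  intro t
  induction t with
  | nil =>
    intro t' h _ _ _ _
    cases t' with
    | nil => rfl
    | node l k r =>
      by_cases hk : k ∈ P
      · have : k ∈ top P (node l k r) := by simp [top_node hk]
        rw [mem_top, ← h] at this
        simp [frontier] at this
      · simp [frontier, hk] at h
  | node l k r ih1 ih2 =>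
    intro t' h h1 h2 hn hi
    have et : top P (node l k r) = top P t' := by simp only [top, h]
    by_cases hk : k ∈ P
    · cases t' with
      | nil => simp [top_node hk, top_nil] at et
      | node l' k' r' =>
        by_cases hk' : k' ∈ P
        · obtain ⟨a1, a2, a3⟩ := h1 hk
          obtain ⟨b1, b2, b3⟩ := h2 hk'
          have m1 : k ∈ top P (node l k r) := by simp [top_node hk]
          have m2 : k' ∈ top P (node l k r) := by simp [et, top_node hk']
          have ek : k = k' := by
            refine hi _ m1 _ m2 (le_antisymm ?_ ?_)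
            · rw [top_node hk] at m2
              simp only [List.mem_append, List.mem_cons] at m2 a1
              rcases m2 with m | m | m
              · exact a1 _ (Or.inl m)
              · rw [m]
              · exact a1 _ (Or.inr m)
            · rw [et, top_node hk'] at m1
              simp only [List.mem_append, List.mem_cons] at m1 b1
              rcases m1 with m | m | m
              · exact b1 _ (Or.inl m)
              · rw [m]
              · exact b1 _ (Or.inr m)
          subst ek
          rw [top_node hk] at hn hi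
          simp only [frontier, hk, if_true] at h
          have n1 : k ∉ top P l := fun hh => by
            have := (List.nodup_append.1 hn).2.2 k hh k (by simp)
            exact this rfl
          have n3 : k ∉ top P r := (List.nodup_cons.1 (List.nodup_append.1 hn).2.1).1
          rw [mem_top] at n1 n3
          obtain ⟨e1, -, e2⟩ := (List.append_cons_inj_of_notMem n1 n3).1 h
          rw [ih1 l' e1 a2 b2 (List.nodup_append.1 hn).1
            fun a ha b hb => hi a (by simp [ha]) b (by simp [hb]),
            ih2 r' e2 a3 b3 (List.nodup_cons.1 (List.nodup_append.1 hn).2.1).2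
            fun a ha b hb => hi a (by simp [ha]) b (by simp [hb])]
        · simp [top_node hk, top_node' hk'] at et
    · cases t' with
      | nil => simp [frontier, hk] at h
      | node l' k' r' =>
        by_cases hk' : k' ∈ P
        · simp [top_node' hk, top_node hk'] at et
        · simpa [frontier, hk, hk'] using h

inductive Wr (b : ℕ) (t : BT) : BT → Prop
  | base : Wr b t t
  | up {s k r} : Wr b t s → b < k → (∀ z ∈ keys r, b < z) → Wr b t (node s k r)

theorem Wr.toRoot {y : ℕ} {t s L R : BT} (h : Wr y t s) (e : toRoot y t = node L y R)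
    (hR : ∀ z ∈ keys R, y < z) : ∃ R', toRoot y s = node L y R' ∧ ∀ z ∈ keys R', y < z := by
  induction h with
  | base => exact ⟨R, e, hR⟩
  | @up s k r _ h1 h2 ih =>
    obtain ⟨R', e', h'⟩ := ih
    refine ⟨node R' k r, by simp [MP_ce2dd3_lc.toRoot, h1, e', rotR], ?_⟩
    intro z hz
    simp only [keys, List.mem_append, List.mem_cons] at hz
    rcases hz with hz | rfl | hz
    · exact h' z hz
    · exact h1
    · exact h2 z hz

theorem Wr.path {y : ℕ} {t s : BT} (h : Wr y t s) :
    ∃ Q, path y s = Q ++ path y t ∧ ∀ z ∈ Q, y < z := by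
  induction h with
  | base => exact ⟨[], rfl, by simp⟩
  | @up s k r _ h1 _ ih =>
    obtain ⟨Q, e, h'⟩ := ih
    exact ⟨k :: Q, by simp [MP_ce2dd3_lc.path, h1, e], by simpa [h1] using h'⟩

theorem toRoot_spine (y : ℕ) (t L R : BT) (e : toRoot y t = node L y R) :
    ∀ A : List ℕ, (∀ a ∈ A, a < y) → toRoot y (spine A t) = node (spine A L) y R := by
  intro A
  induction A with
  | nil => intro _; exact e
  | cons a A ih =>
    intro h
    have h1 : a < y := h a (by simp)
    simp [spine, toRoot, h1, h1.le.not_gt, ih fun b hb => h b (by simp [hb]), rotL]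

theorem path_spine (y : ℕ) (t : BT) :
    ∀ A : List ℕ, (∀ a ∈ A, a < y) → path y (spine A t) = A ++ path y t := by
  intro A
  induction A with
  | nil => intro _; rfl
  | cons a A ih =>
    intro h
    have h1 : a < y := h a (by simp)
    simp [spine, path, h1, h1.le.not_gt, ih fun b hb => h b (by simp [hb])]

theorem frontier_spine (P : List ℕ) (t : BT) : ∀ A : List ℕ, (∀ a ∈ A, a ∈ P) →
    frontier P (spine A t) = A.flatMap (fun a => [.inr nil, .inl a]) ++ frontier P t := by
  intro A
  induction A with
  | nil => intro _; rfl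
  | cons a A ih =>
    intro h
    simp [spine, frontier, h a (by simp), ih fun b hb => h b (by simp [hb])]

theorem top_spine (P : List ℕ) (t : BT) : ∀ A : List ℕ, (∀ a ∈ A, a ∈ P) →
    top P (spine A t) = A ++ top P t := by
  intro A
  induction A with
  | nil => intro _; rfl
  | cons a A ih =>
    intro h
    simp [spine, top_node (h a (by simp)), top_nil, ih fun b hb => h b (by simp [hb])]

theorem heap_spine (P : List ℕ) (κ : ℕ → ℕ) (t : BT) (ht : top P t = []) (hh : Heap P κ t) :
    ∀ A : List ℕ, (∀ a ∈ A, a ∈ P) → A.Pairwise (fun a b => κ a ≤ κ b) →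
      Heap P κ (spine A t) := by
  intro A
  induction A with
  | nil => intro _ _; exact hh
  | cons a A ih =>
    intro h hp
    have h' : ∀ b ∈ A, b ∈ P := fun b hb => h b (by simp [hb])
    rw [List.pairwise_cons] at hp
    intro _
    refine ⟨?_, trivial, ih h' hp.2⟩
    simpa [top_nil, top_spine P t A h', ht] using hp.1

theorem hang_not (P : List ℕ) (v : ℕ) : ∀ t : BT, v ∉ keys t → hang P v t = [] := by
  intro t
  induction t with
  | nil => intro _; rfl
  | node l k r ih1 ih2 =>
    intro h
    simp only [keys, List.mem_append, List.mem_cons, not_or] at h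
    simp [hang, Ne.symm h.2.1, ih1 h.1, ih2 h.2.2]

theorem hang_spine (P : List ℕ) (v c : ℕ) (C : BT) (hc : c ∈ P) (hv : c ≠ v)
    (hC : v ∉ keys C) : ∀ A : List ℕ, (∀ a ∈ A, a ∈ P) →
      hang P v (spine A (node C c nil)) = [] := by
  intro A
  induction A with
  | nil => intro _; simp [spine, hang, hv, hang_not P v C hC]
  | cons a A ih =>
    intro h
    have h' : ∀ b ∈ A, b ∈ P := fun b hb => h b (by simp [hb])
    by_cases e : a = v
    · cases A with
      | nil => simp [spine, hang, e, off, hc]
      | cons b A => simp [spine, hang, e, off, h' b (by simp)]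
    · simp [spine, hang, e, ih h']

theorem hang_spine' (P : List ℕ) (c : ℕ) (C : BT) : ∀ A : List ℕ, c ∉ A →
      hang P c (spine A (node C c nil)) = off P C := by
  intro A
  induction A with
  | nil => intro _; simp [spine, hang, off]
  | cons a A ih =>
    intro h
    simp only [List.mem_cons, not_or] at h
    simp [spine, hang, Ne.symm h.1, ih h.2]

theorem findIdx_range' (a : ℕ) : ∀ n s : ℕ, s ≤ a → a < s + n →
    (List.range' s n).findIdx (fun z => decide (z = a)) = a - s := by
  intro n
  induction n with
  | zero => intro s h1 h2; omega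
  | succ n ih =>
    intro s h1 h2
    rw [List.range'_succ, List.findIdx_cons]
    by_cases e : s = a
    · simp [e]
    · rw [ih (s + 1) (by omega) (by omega)]
      simp [e]; omega

theorem findIdx_ys (m a : ℕ) (ha : a ≤ m) (σ : List ℕ) : ∀ j : ℕ,
    (ys m j ++ σ).findIdx (fun z => decide (z = a)) = σ.findIdx (fun z => decide (z = a)) + j := by
  intro j
  induction j with
  | zero => rfl
  | succ j ih =>
    have : m + 2 * j + 2 ≠ a := by omega
    simp only [ys, List.cons_append, List.findIdx_cons, this, decide_false, cond_false, ih]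
    rfl

theorem step_inv (m j : ℕ) (T T' : BT)
    (hT : Wr (m + 2 * (j + 1) + 2) (spine (List.range' 1 m) (ctree m (j + 2))) T)
    (hs : Step (ys m (j + 1) ++ List.range' 1 m) (m + 2 * (j + 1) + 2) T T') :
    Wr (m + 2 * j + 2) (spine (List.range' 1 m) (ctree m (j + 1))) T' := by
  set y := m + 2 * (j + 1) + 2 with hy
  set c := m + 2 * (j + 1) + 1 with hc
  set A := List.range' 1 m with hA
  set C := ctree m (j + 1) with hC
  have hAm : ∀ a ∈ A, 1 ≤ a ∧ a ≤ m := by
    intro a ha; rw [hA, List.mem_range'_1] at ha; omega
  have hAy : ∀ a ∈ A, a < y := fun a ha => by have := hAm a ha; omega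
  have e0 : toRoot y (ctree m (j + 2)) = node (node C c nil) y nil := by
    have : c < y := by omega
    simp [ctree, toRoot, ← hy, ← hc, this, this.le.not_gt, rotL, hC]
  obtain ⟨R, eR, hR⟩ := hT.toRoot (toRoot_spine y _ _ _ e0 A hAy) (by simp [keys])
  obtain ⟨Q, eQ, hQ⟩ := hT.path
  have e1 : path y (ctree m (j + 2)) = [c, y] := by
    have : c < y := by omega
    simp [ctree, path, ← hy, ← hc, this, this.le.not_gt]
  rw [path_spine y _ A hAy, e1] at eQ
  obtain ⟨l, r, l', r', a1, rfl, a2, a3, a4, -⟩ := hs
  rw [eR] at a1 a4
  obtain ⟨rfl, -, rfl⟩ := node.inj a1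
  set P := path y T with hP
  have hAP : ∀ a ∈ A, a ∈ P := fun a ha => by simp [eQ, ha]
  have hcP : c ∈ P := by simp [eQ]
  have hroot : m + 2 * j + 1 ∉ P := by
    rw [eQ]
    simp only [List.mem_append, List.mem_cons, List.not_mem_nil, or_false, not_or]
    refine ⟨fun h => ?_, fun h => ?_, by omega, by omega⟩
    · have := hQ _ h; omega
    · have := hAm _ h; omega
  have tC : top P C = [] := top_node' hroot _ _
  have kC : ∀ z, z ∈ keys C ↔ m + 1 ≤ z ∧ z < m + 1 + 2 * (j + 1) := by
    intro z; rw [hC, keys_ctree, List.mem_range'_1]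
  set κ := key (ys m (j + 1) ++ A) P (node (spine A (node C c nil)) y R) with hκ
  have κa : ∀ a ∈ A, κ a = a - 1 + (j + 1) := by
    intro a ha
    have := hAm a ha
    have h1 : hang P a (node (spine A (node C c nil)) y R) = [] := by
      have h2 : y ≠ a := by omega
      simp only [hang, h2, if_false]
      rw [hang_spine P a c C hcP (by omega) (by rw [kC]; omega) A hAP,
        hang_not P a R fun h => by have := hR _ h; omega]
      rfl
    simp only [hκ, key, h1, List.not_mem_nil, or_false]
    rw [findIdx_ys m a this.2, hA, findIdx_range' a m 1 this.1 (by omega)]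
  have κc : κ c = 0 := by
    have h1 : m + 2 * j + 2 ∈ hang P c (node (spine A (node C c nil)) y R) := by
      have h2 : y ≠ c := by omega
      simp only [hang, h2, if_false]
      rw [hang_spine' P c C A fun h => by have := hAm _ h; omega]
      refine List.mem_append_left _ ?_
      have : off P C = keys C := by simp [hC, ctree, off, hroot]
      rw [this, kC]; omega
    simp [hκ, key, ys, List.findIdx_cons, h1]
  have ef : frontier P (node (spine A C) c nil) = frontier P l' := by
    rw [a2, frontier_spine P _ A hAP]
    simp [frontier, hcP, frontier_spine P _ A hAP]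
  have et : top P (node (spine A C) c nil) = A ++ [c] := by
    simp [top_node hcP, top_spine P C A hAP, tC, top_nil]
  have hl : node (spine A C) c nil = l' := by
    refine heap_unique P κ _ _ ef ?_ a4 ?_ ?_
    · intro _
      refine ⟨fun v _ => by rw [κc]; exact Nat.zero_le _, ?_, trivial⟩
      refine heap_spine P κ C tC (fun h => (hroot h).elim) A hAP ?_
      refine List.Pairwise.imp_of_mem ?_ (List.pairwise_lt_range' (s := 1) (n := m))
      intro a b ha hb hab
      rw [κa a ha, κa b hb]; omega
    · rw [et, List.nodup_append]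
      refine ⟨List.nodup_range', by simp, ?_⟩
      intro a ha b hb
      have := hAm a ha
      simp only [List.mem_singleton] at hb
      omega
    · rw [et]
      intro a ha b hb hab
      simp only [List.mem_append, List.mem_singleton] at ha hb
      rcases ha with ha | rfl <;> rcases hb with hb | rfl
      · rw [κa a ha, κa b hb] at hab
        have := hAm a ha; have := hAm b hb; omega
      · rw [κa a ha, κc] at hab; omega
      · rw [κa b hb, κc] at hab; omega
      · rfl
  subst hl
  refine .up (.up .base (by omega) (by simp [keys])) (by omega) ?_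
  intro z hz
  rw [keys_eq_of_frontier a3] at hz
  have := hR z hz
  omega

theorem greedy_ge (m : ℕ) : ∀ (j : ℕ) (T : BT) (g : ℕ),
    Wr (m + 2 * j + 2) (spine (List.range' 1 m) (ctree m (j + 1))) T →
    Greedy T (ys m (j + 1) ++ List.range' 1 m) g → m * (j + 1) ≤ g := by
  have hd : ∀ (j : ℕ) (T : BT),
      Wr (m + 2 * j + 2) (spine (List.range' 1 m) (ctree m (j + 1))) T →
      m ≤ depth (m + 2 * j + 2) T + 1 := by
    intro j T h
    obtain ⟨Q, eQ, -⟩ := h.path
    rw [path_spine _ _ _ fun a ha => by rw [List.mem_range'_1] at ha; omega] at eQ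
    simp [depth, eQ]; omega
  intro j
  induction j with
  | zero =>
    intro T g h hg
    cases hg with
    | step _ _ => have := hd 0 T h; simp at this ⊢; omega
  | succ j ih =>
    intro T g h hg
    cases hg with
    | step h1 h2 =>
      have := hd _ T h
      have := ih _ _ (step_inv m j T _ h h1) h2
      rw [Nat.mul_add m (j + 1) 1]; omega

end Pool.Agent.Lib.MP_ce2dd3_lc
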