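import Mathlib.Order.Lattice.Nat
import Mathlib.Data.Real.Basic

namespace Pool.Agent.Lib.MP_ce2dd3_lc

/-- Binary trees with natural-number keys: `node l k r` has root key `k`. -/
inductive BT : Type
  | nil : BT
  | node : BT → ℕ → BT → BT

open BT

/-- The keys in symmetric order. -/
def keys : BT → List ℕ
  | nil => []
  | node l k r => keys l ++ k :: keys r

/-- One single rotation, anywhere in the tree. -/
inductive Rot : BT → BT → Prop
  | right (a x b y c) : Rot (node (node a x b) y c) (node a x (node b y c))
  | left (a x b y c) : Rot (node a x (node b y c)) (node (node a x b) y c)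
  | inL {l l'} (k r) : Rot l l' → Rot (node l k r) (node l' k r)
  | inR {r r'} (l k) : Rot r r' → Rot (node l k r) (node l k r')

/-- The keys on the access path to `x`, from the root down to `x`. -/
def path (x : ℕ) : BT → List ℕ
  | nil => []
  | node l k r => k :: (if x < k then path x l else if k < x then path x r else [])

/-- The length (number of edges) of the access path to `x`. -/
def depth (x : ℕ) (T : BT) : ℕ := (path x T).length - 1

/-- `Serve T σ c`: starting from `T`, the sequence `σ` can be served at total cost `c`. -/
inductive Serve : BT → List ℕ → ℕ → Prop
  | done (T) : Serve T [] 0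
  | rot {T T' σ c} : Rot T T' → Serve T' σ c → Serve T σ (c + 1)
  | access {T x σ c} : Serve T σ c → Serve T (x :: σ) (c + (1 + depth x T))

/-- The optimal offline cost. -/
noncomputable def OPT (σ : List ℕ) (T : BT) : ℕ := sInf {c | Serve T σ c}

def rotR : BT → BT
  | node (node a x b) y c => node a x (node b y c)
  | t => t

def rotL : BT → BT
  | node a x (node b y c) => node (node a x b) y c
  | t => t

/-- Step 1: rotate `x` up, one edge at a time, until it is the root. -/
def toRoot (x : ℕ) : BT → BT
  | nil => nil
  | node l k r =>
    if x < k then rotR (node (toRoot x l) k r)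
    else if k < x then rotL (node l k (toRoot x r)) else node l k r

/-- The nodes of the top part of the tree that lie in `P`, and the subtrees hanging off them,
in symmetric order. -/
def frontier (P : List ℕ) : BT → List (ℕ ⊕ BT)
  | nil => [.inr nil]
  | node l k r => if k ∈ P then frontier P l ++ .inl k :: frontier P r else [.inr (node l k r)]

/-- The nodes of the top part. -/
def top (P : List ℕ) (T : BT) : List ℕ := (frontier P T).filterMap Sum.getLeft?

/-- The keys of a subtree whose root is not in `P`; nothing if its root is in `P`. -/
def off (P : List ℕ) : BT → List ℕ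
  | nil => []
  | node l k r => if k ∈ P then [] else keys (node l k r)

/-- The keys in the subtrees that hang from the node `v` off `P`. -/
def hang (P : List ℕ) (v : ℕ) : BT → List ℕ
  | nil => []
  | node l k r => if k = v then off P l ++ off P r else hang P v l ++ hang P v r

/-- The top part is a min-heap for `κ`. -/
def Heap (P : List ℕ) (κ : ℕ → ℕ) : BT → Prop
  | nil => True
  | node l k r => k ∈ P → (∀ v ∈ top P l ++ top P r, κ k ≤ κ v) ∧ Heap P κ l ∧ Heap P κ r

/-- The heap key of `v`: the position in the future requests `σ` of the first request to `v` or
to a node hanging from `v` off `P` in `U`; the value `σ.length` stands for `+∞`. -/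
def key (σ P : List ℕ) (U : BT) (v : ℕ) : ℕ := σ.findIdx fun z => z = v ∨ z ∈ hang P v U

/-- One greedy step for the request `x` with future requests `σ` can turn `T` into `T'`. -/
def Step (σ : List ℕ) (x : ℕ) (T T' : BT) : Prop :=
  ∃ l r l' r', toRoot x T = node l x r ∧ T' = node l' x r' ∧
    frontier (path x T) l' = frontier (path x T) l ∧
    frontier (path x T) r' = frontier (path x T) r ∧
    Heap (path x T) (key σ (path x T) (toRoot x T)) l' ∧
    Heap (path x T) (key σ (path x T) (toRoot x T)) r'

/-- `Greedy T σ g`: a run of the greedy algorithm on `σ` from `T` in which the rotations of step 1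
and the accesses at the root cost `g` in total (the rotations of step 2 are not charged). -/
inductive Greedy : BT → List ℕ → ℕ → Prop
  | done (T) : Greedy T [] 0
  | step {T T' x σ g} : Step σ x T T' → Greedy T' σ g → Greedy T (x :: σ) (g + (depth x T + 1))

end Pool.Agent.Lib.MP_ce2dd3_lc
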