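import Pool.Agent.Lib.MP_ce2dd3_lc.Defs
import Mathlib.Tactic

namespace Pool.Agent.Lib.MP_ce2dd3_lc

open BT

inductive Rots : ℕ → BT → BT → Prop
  | refl (T) : Rots 0 T T
  | step {k T T' T''} : Rot T T' → Rots k T' T'' → Rots (k + 1) T T''

theorem Rots.trans {k m : ℕ} {T T' T'' : BT} (h : Rots k T T') (h' : Rots m T' T'') :
    Rots (m + k) T T'' := by
  induction h with
  | refl => exact h'
  | step h _ ih => exact .step h (ih h')

theorem Rots.inL {k : ℕ} {l l' : BT} (h : Rots k l l') (x : ℕ) (r : BT) :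
    Rots k (node l x r) (node l' x r) := by
  induction h with
  | refl => exact .refl _
  | step h _ ih => exact .step (.inL _ _ h) ih

theorem Serve.rots {k c : ℕ} {T T' : BT} {σ : List ℕ} (h : Rots k T T') (h' : Serve T' σ c) :
    Serve T σ (c + k) := by
  induction h with
  | refl => exact h'
  | step h _ ih => exact .rot h (ih h')

def lp : List ℕ → BT
  | [] => nil
  | a :: L => node (lp L) a nil

def spine : List ℕ → BT → BT
  | [], t => t
  | a :: L, t => node nil a (spine L t)

theorem rots_lp (r : BT) : ∀ (L : List ℕ) (x : ℕ),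
    Rots (keys r).length (node (lp L) x r) (lp ((keys r).reverse ++ x :: L)) := by
  induction r with
  | nil => intro L x; exact .refl _
  | node l y r ih1 ih2 =>
    intro L x
    have h1 := (ih1 L x).inL y r
    have h2 := ih2 ((keys l).reverse ++ x :: L) y
    have h3 := Rots.step (Rot.left (lp L) x l y r) (h1.trans h2)
    simpa [keys, Nat.add_comm, Nat.add_assoc, Nat.add_left_comm] using h3

def zip : List ℕ → List ℕ → BT
  | [], R => spine R nil
  | x :: L, R => node (lp L) x (spine R nil)

theorem rot_zip (x y : ℕ) (L R : List ℕ) : Rot (zip (x :: y :: L) R) (zip (y :: L) (x :: R)) :=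
  Rot.right _ _ _ _ _

theorem rot_zip' (x y : ℕ) (L R : List ℕ) : Rot (zip (y :: L) (x :: R)) (zip (x :: y :: L) R) :=
  Rot.left _ _ _ _ _

theorem depth_root (l : BT) (x : ℕ) (r : BT) : depth x (node l x r) = 0 := by
  simp [depth, path]

theorem serve_up : ∀ (l : List ℕ) (x : ℕ) (L R : List ℕ),
    Serve (zip (x :: L) (l ++ R)) (x :: l) (2 * l.length + 1) := by
  intro l
  induction l with
  | nil =>
    intro x L R
    have := Serve.access (x := x) (Serve.done (zip (x :: L) R))
    simpa [zip, depth_root] using this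
  | cons y l ih =>
    intro x L R
    have := Serve.access (x := x) (Serve.rot (rot_zip' y x L (l ++ R)) (ih y (x :: L) R))
    have e : depth x (zip (x :: L) (y :: (l ++ R))) = 0 := depth_root _ _ _
    rw [e] at this
    simpa [Nat.mul_add, Nat.add_assoc] using this

theorem rots_down : ∀ (L : List ℕ) (x : ℕ) (R : List ℕ),
    Rots L.length (zip (L ++ [x]) R) (zip [x] (L.reverse ++ R)) := by
  intro L
  induction L with
  | nil => intro x R; exact .refl _
  | cons a L ih =>
    intro x R
    have h := ih x (a :: R)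
    obtain ⟨y, M, e⟩ : ∃ y M, L ++ [x] = y :: M := by cases L <;> simp
    rw [e] at h
    simpa [e] using Rots.step (rot_zip a y M R) h

def ctree (m : ℕ) : ℕ → BT
  | 0 => nil
  | j + 1 => node (ctree m j) (m + 2 * j + 1) (node nil (m + 2 * j + 2) nil)

def ys (m : ℕ) : ℕ → List ℕ
  | 0 => []
  | j + 1 => (m + 2 * j + 2) :: ys m j

def desc (m : ℕ) : ℕ → List ℕ
  | 0 => []
  | j + 1 => (m + 2 * j + 2) :: (m + 2 * j + 1) :: desc m j

theorem keys_ctree (m j : ℕ) : keys (ctree m j) = List.range' (m + 1) (2 * j) := by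
  induction j with
  | zero => rfl
  | succ j ih =>
    rw [show 2 * (j + 1) = 2 * j + 1 + 1 by ring, List.range'_concat, List.range'_concat]
    simp [ctree, keys, ih]; omega

theorem keys_ctree_reverse (m j : ℕ) : (keys (ctree m j)).reverse = desc m j := by
  induction j with
  | zero => rfl
  | succ j ih => simp [ctree, keys, desc, ih]

theorem keys_spine (L : List ℕ) (t : BT) : keys (spine L t) = L ++ keys t := by
  induction L with
  | nil => rfl
  | cons a L ih => simp [spine, keys, ih]

theorem serve_ys (m : ℕ) (a : ℕ) (A σ : List ℕ) (c : ℕ) (h : ∀ R, Serve (zip (a :: A) R) σ c) :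
    ∀ (j : ℕ) (R : List ℕ), Serve (zip (desc m j ++ a :: A) R) (ys m j ++ σ) (c + 3 * j) := by
  intro j
  induction j with
  | zero => intro R; exact h R
  | succ j ih =>
    intro R
    obtain ⟨y, M, e⟩ : ∃ y M, desc m j ++ a :: A = y :: M := by cases j <;> simp [desc]
    have h1 := ih ((m + 2 * j + 1) :: (m + 2 * j + 2) :: R)
    rw [e] at h1
    have h2 := Serve.access (x := m + 2 * j + 2)
      (Serve.rot (rot_zip _ _ _ R) (Serve.rot (rot_zip _ _ _ _) h1))
    have e2 : depth (m + 2 * j + 2) (zip ((m + 2 * j + 2) :: (m + 2 * j + 1) :: y :: M) R) = 0 :=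
      depth_root _ _ _
    rw [e2] at h2
    simpa [desc, ys, e, Nat.mul_add, Nat.add_assoc] using h2

theorem opt_le (m : ℕ) (hm : 1 ≤ m) :
    OPT (ys m m ++ List.range' 1 m) (spine (List.range' 1 m) (ctree m m)) ≤ 9 * m := by
  obtain ⟨n, rfl⟩ : ∃ n, m = n + 1 := ⟨m - 1, by omega⟩
  have e1 : List.range' 1 (n + 1) = 1 :: List.range' 2 n := List.range'_succ
  obtain ⟨a, A, e2⟩ : ∃ a A, (List.range' 2 n).reverse ++ [1] = a :: A := by
    cases (List.range' 2 n).reverse <;> simp
  have h1 : ∀ R, Serve (zip (a :: A) R) (1 :: List.range' 2 n) (2 * n + 1 + n) := by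
    intro R
    have h := rots_down (List.range' 2 n).reverse 1 R
    rw [e2, List.reverse_reverse] at h
    simpa using (serve_up (List.range' 2 n) 1 [] R).rots h
  have h2 := serve_ys (n + 1) a A _ _ h1 (n + 1) []
  have h3 := rots_lp (spine (List.range' 2 n) (ctree (n + 1) (n + 1))) [] 1
  rw [keys_spine, List.reverse_append, keys_ctree_reverse, List.append_assoc, e2] at h3
  have e3 : lp (desc (n + 1) (n + 1) ++ a :: A) = zip (desc (n + 1) (n + 1) ++ a :: A) [] := rfl
  rw [e3] at h3
  have h4 := h2.rots h3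
  rw [e1]
  refine (Nat.sInf_le h4).trans ?_
  simp [keys_ctree]; omega

end Pool.Agent.Lib.MP_ce2dd3_lc
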